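import Mathlib
import Pool.Agent.N715.AD.Fin3

/-!
# A gap for the canonical heights of abelian points: maps with hyperbolic orbifold

Let `f` be a rational map of the projective line, of degree `d ≥ 2`, over a number field `K`. The
orbifold of `f` attaches to a point `y` the least common multiple `ν(y)` of the local degrees at
`c` of the iterates `f^n`, for all `n` and all points `c` with `f^n(c) = y` (and `∞` if there is no
common multiple). Suppose that its Euler characteristic `2 - ∑ (1 - 1 / ν(y))` is negative. By
well-known results of Thurston, this holds for all rational maps except those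
conjugate to power maps, Chebyshev polynomials (up to sign) and Lattès maps.

Theorem: for each `r` there is a constant `c > 0` with the following property. Let `E` be an abelian
extension of `K` and let `L` be an extension of `E` of degree at most `r`. All wandering points
`P` of `P^1(L)` satisfy `ĥ_f(P) ≥ c`.

So the points of degree at most `r` over the maximal abelian extension of `K` satisfy a
lower bound which does not depend on their degree over `K`, while the dynamical Lehmer conjecture
asks for `ĥ_f(P) ≥ C(f) / [K(P) : K]`.
-/

set_option autoImplicit false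

namespace Pool.Agent.Results.MP_2194ec_nt.AbelianGap

open MvPolynomial NumberField Module Filter Topology

/-- the map defined by a pair of forms over `K`, on coordinate vectors over an extension -/
noncomputable def evalMap {K L : Type} [Field K] [Field L] [Algebra K L]
    (F : Fin 2 → MvPolynomial (Fin 2) K) (y : Fin 2 → L) : Fin 2 → L :=
  fun i => aeval y (F i)

/-- the point with coordinate vector `x` is wandering: its iterates are pairwise distinct points
of the projective line -/
def Wandering {K L : Type} [Field K] [Field L] [Algebra K L]
    (F : Fin 2 → MvPolynomial (Fin 2) K) (x : Fin 2 → L) : Prop :=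
  ¬ ∃ m n : ℕ, m ≠ n ∧ ∃ c : L, c ≠ 0 ∧ (evalMap F)^[n] x = c • (evalMap F)^[m] x

/-- `h` is the canonical height of the point with coordinate vector `x` over the number field `L`:
the limit of `h(F^n(x)) / d ^ n`, where `h` is the absolute logarithmic Weil height, that is
Mathlib's (relative) `Height.logHeight` divided by `[L : ℚ]` -/
def IsCanonicalHeight {K L : Type} [Field K] [Field L] [NumberField L] [Algebra K L]
    (F : Fin 2 → MvPolynomial (Fin 2) K) (d : ℕ) (x : Fin 2 → L) (h : ℝ) : Prop :=
  Tendsto (fun n : ℕ => Height.logHeight ((evalMap F)^[n] x) /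
    ((finrank ℚ L : ℝ) * (d : ℝ) ^ n)) atTop (𝓝 h)

section orbifold

variable {k : Type} [Field k]

/-- the pair of forms which defines the `n`-th iterate of the map defined by the pair `G` -/
noncomputable def iterate (G : Fin 2 → MvPolynomial (Fin 2) k) :
    ℕ → Fin 2 → MvPolynomial (Fin 2) k
  | 0 => X
  | n + 1 => fun i => bind₁ (iterate G n) (G i)

/-- the value at the vector `z` of the pair of forms `G` -/
noncomputable def value (G : Fin 2 → MvPolynomial (Fin 2) k) (z : Fin 2 → k) : Fin 2 → k :=
  fun i => eval z (G i)

/-- the nonzero vectors `y` and `z` define the same point of the projective line -/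
def SamePoint (y z : Fin 2 → k) : Prop := y 0 * z 1 - y 1 * z 0 = 0

/-- the linear form which vanishes at the point with coordinate vector `y` -/
noncomputable def linearForm (y : Fin 2 → k) : MvPolynomial (Fin 2) k :=
  C (y 1) * X 0 - C (y 0) * X 1

/-- the local degree, at the point with coordinate vector `z`, of the map defined by the pair `G`
is `e`: the pull-back by this map of the linear form which vanishes at the image of `z` has a zero
of order exactly `e` at `z` -/
def IsLocalDegree (G : Fin 2 → MvPolynomial (Fin 2) k) (z : Fin 2 → k) (e : ℕ) : Prop :=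
  linearForm z ^ e ∣ bind₁ G (linearForm (value G z)) ∧
    ¬ linearForm z ^ (e + 1) ∣ bind₁ G (linearForm (value G z))

/-- the weight, at the point with coordinate vector `y`, of the orbifold of the map `f` defined by
the pair `G`, is at least `m`: all positive common multiples of the local degrees of the iterates
`f^n` at the points `z` with `f^n(z) = y` are at least `m` -/
def WeightAtLeast (G : Fin 2 → MvPolynomial (Fin 2) k) (y : Fin 2 → k) (m : ℕ) : Prop :=
  ∀ M : ℕ, 0 < M →
    (∀ (n : ℕ) (z : Fin 2 → k) (e : ℕ), z ≠ 0 → SamePoint (value (iterate G n) z) y →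
      IsLocalDegree (iterate G n) z e → e ∣ M) → m ≤ M

/-- the Euler characteristic `2 - ∑ (1 - 1 / ν(y))` of the orbifold of the map defined by the pair
`G` is negative -/
def HyperbolicOrbifold (G : Fin 2 → MvPolynomial (Fin 2) k) : Prop :=
  ∃ (s : ℕ) (y : Fin s → Fin 2 → k) (m : Fin s → ℕ), (∀ i, y i ≠ 0) ∧
    (∀ i j, i ≠ j → ¬ SamePoint (y i) (y j)) ∧ (∀ i, 0 < m i ∧ WeightAtLeast G (y i) (m i)) ∧
    2 < ∑ i, (1 - 1 / (m i : ℝ))

lemma iterate_eq (G : Fin 2 → MvPolynomial (Fin 2) k) (n : ℕ) :
    iterate G n = N715.AD.itF G n := by
  induction n with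
  | zero => rfl
  | succ n ih =>
    funext i
    change bind₁ (iterate G n) (G i) = bind₁ (N715.AD.itF G n) (G i)
    rw [ih]

end orbifold

/-- **Main result.** -/
theorem result (K : Type) [Field K] [NumberField K] (d : ℕ) (hd : 2 ≤ d)
    -- the rational map: two binary forms of degree `d` without common zero
    (F : Fin 2 → MvPolynomial (Fin 2) K) (hF : ∀ i, (F i).IsHomogeneous d)
    (hmor : ∀ z : Fin 2 → AlgebraicClosure K, (∀ i, aeval z (F i) = 0) → z = 0)
    -- its orbifold has negative Euler characteristic
    (horb : HyperbolicOrbifold fun i => map (algebraMap K (AlgebraicClosure K)) (F i))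
    (r : ℕ) :
    ∃ C : ℕ, 0 < C ∧ ∀ (E L : Type) [Field E] [NumberField E] [Field L] [NumberField L]
      [Algebra K E] [Algebra E L] [Algebra K L] [IsScalarTower K E L]
      -- the extension `E / K` is Galois with commutative Galois group
      [IsAbelianGalois K E],
      finrank E L ≤ r →
      ∀ x : Fin 2 → L, x ≠ 0 → Wandering F x →
      ∃ h : ℝ, IsCanonicalHeight F d x h ∧ 1 / (C : ℝ) ≤ h := by
  obtain ⟨s, y, m, hy, hdist, hm, hsum⟩ := horb
  exact N715.AD.fin3 K d hd F hF hmor y m (fun i => (hm i).1) hy (fun i j hij => hdist i j hij)
    (fun i M hM hM' => (hm i).2 M hM fun n z e hz h1 h2 => hM' n z e hz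
      (by rw [iterate_eq] at h1; exact h1) (by rw [iterate_eq] at h2; exact h2)) hsum r

end Pool.Agent.Results.MP_2194ec_nt.AbelianGap
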