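import Mathlib
import Pool.Agent.N715.AC.Fin
import Pool.Agent.N715.AC.Ind2

/-!
# Canonical heights of points of bounded degree over abelian extensions: all rational maps

Let `f` be a rational map of the projective line, of degree `d ≥ 2`, over a number field `K`, and
let `B` and `r` be integers. There is an integer `C > 0` with the following properties. Let `k` be
an extension of `K` of degree at most `B`, let `E` be an abelian extension of `k` and let `L` be an
extension of `E` of degree at most `r`. All wandering points `P` of `P^1(L)` satisfy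
`ĥ_f(P) ≥ 1 / (C * (1 + log D) ^ C)`, where `D = [k(P) : k]`.
There is no hypothesis on the reduction of `f` and on the ramification of `E`.

This is much stronger than the inequality `ĥ_f(P) ≥ C(f) / [K(P) : K]` of the dynamical Lehmer
conjecture, for these points: they satisfy `ĥ_f(P) ≥ c(ε) * [K(P) : K] ^ (-ε)` for every `ε > 0`.
The case `r = 1`, `k = K` is the case of abelian points.

Moreover `ĥ_f(P) ≥ 1 / (C * N(𝔭) ^ C)` for every prime ideal `𝔭` of `k` which is at most tamely
ramified in `E` and does not contain `C`, whatever the degree is.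
-/

set_option autoImplicit false

namespace Pool.Agent.Results.MP_2194ec_nt.AbelianLehmer

open MvPolynomial NumberField Module Filter Topology

/-- the map defined by a pair of forms over `K`, on coordinate vectors over an extension -/
noncomputable def evalMap {K L : Type} [Field K] [Field L] [Algebra K L]
    (F : Fin 2 → MvPolynomial (Fin 2) K) (y : Fin 2 → L) : Fin 2 → L :=
  fun i => aeval y (F i)

/-- the point with coordinate vector `x` is wandering: its iterates are pairwise distinct points
of the projective line -/
def Wandering {K L : Type} [Field K] [Field L] [Algebra K L]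
    (F : Fin 2 → MvPolynomial (Fin 2) K) (x : Fin 2 → L) : Prop :=
  ¬ ∃ m n : ℕ, m ≠ n ∧ ∃ c : L, c ≠ 0 ∧ (evalMap F)^[n] x = c • (evalMap F)^[m] x

/-- `h` is the canonical height of the point with coordinate vector `x` over the number field `L`:
the limit of `h(F^n(x)) / d ^ n`, where `h` is the absolute logarithmic Weil height, that is
Mathlib's (relative) `Height.logHeight` divided by `[L : ℚ]` -/
def IsCanonicalHeight {K L : Type} [Field K] [Field L] [NumberField L] [Algebra K L]
    (F : Fin 2 → MvPolynomial (Fin 2) K) (d : ℕ) (x : Fin 2 → L) (h : ℝ) : Prop :=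
  Tendsto (fun n : ℕ => Height.logHeight ((evalMap F)^[n] x) /
    ((finrank ℚ L : ℝ) * (d : ℝ) ^ n)) atTop (𝓝 h)

/-- the field `k(P)` generated over `k` by the ratios `x_i / x_j` of the coordinates of the point
`P` with coordinate vector `x` -/
def fieldOfDefinition (k : Type) {L : Type} [Field k] [Field L] [Algebra k L] (x : Fin 2 → L) :
    IntermediateField k L :=
  IntermediateField.adjoin k (Set.range fun ij : Fin 2 × Fin 2 => x ij.1 / x ij.2)

/-- **Main result.** -/
theorem result (K : Type) [Field K] [NumberField K] (d : ℕ) (hd : 2 ≤ d)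
    -- the rational map: two binary forms of degree `d` without common zero
    (F : Fin 2 → MvPolynomial (Fin 2) K) (hF : ∀ i, (F i).IsHomogeneous d)
    (hmor : ∀ z : Fin 2 → AlgebraicClosure K, (∀ i, aeval z (F i) = 0) → z = 0)
    (B r : ℕ) :
    ∃ C : ℕ, 0 < C ∧ ∀ (k E L : Type) [Field k] [NumberField k] [Field E] [NumberField E]
      [Field L] [NumberField L] [Algebra K k] [Algebra k E] [Algebra E L] [Algebra K L]
      [Algebra k L] [IsScalarTower K k L] [IsScalarTower k E L]
      -- the extension `E / k` is Galois with commutative Galois group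
      [IsAbelianGalois k E],
      finrank K k ≤ B → finrank E L ≤ r →
      ∀ x : Fin 2 → L, x ≠ 0 → Wandering F x →
      ∃ h : ℝ, IsCanonicalHeight F d x h ∧
        1 / (C * (1 + Real.log (finrank k (fieldOfDefinition k x))) ^ C) ≤ h ∧
        ∀ 𝔭 : Ideal (𝓞 k), 𝔭.IsMaximal → 𝔭 ≠ ⊥ → (C : 𝓞 k) ∉ 𝔭 →
          -- `𝔭` is at most tamely ramified in `E`
          (∀ 𝔓 : Ideal (𝓞 E), 𝔓.IsPrime → 𝔓.under (𝓞 k) = 𝔭 →
            Nat.Coprime (𝔓.ramificationIdx (𝓞 k)) 𝔭.absNorm) →
          1 / (C * (𝔭.absNorm : ℝ) ^ C) ≤ h :=
  N715.AC.main N715.AC.numIndC N715.AC.primeSelC K d hd F hF hmor B r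

end Pool.Agent.Results.MP_2194ec_nt.AbelianLehmer
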