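import Pool.Agent.N954.RO.Leh
import Pool.Agent.N24.RW.All

/-!
# MP_2194ec_nt: the dynamical Lehmer inequality along random orbits of thin groups

The starting result `PolynomialLehmer` shows that for 100% of the vectors `(b, c₀, …, c_d)` of integers
of a number field `K` in large boxes the polynomial

  `φ = (c₀ + c₁ x + … + c_d x^d) / b`

of degree `d ≥ 2` satisfies the dynamical Lehmer inequality `ĥ_φ(x) ≥ B / [L : K]` for all number
fields `L ⊇ K` of degree not divisible by `d` and all `x ∈ L` (and `ĥ_φ(x) ≥ B` if `L` is Galois over
`K`); here `B` is any constant given in advance.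

Here we prove this along the random orbits of groups of matrices which may have infinite index in
`SL_r(ℤ)`. Let `r = m (d + 2)`, and let `s_0, …, s_k` be matrices in `SL_r(ℤ)` which generate
`SL_r(ℤ/q)` for all `q` prime to some `q₀` (by strong approximation this holds for every finite set
which generates a Zariski dense subgroup). Let `v ≠ 0` be a vector in `ℤ^r`, and let
`v_0 = v`, `v_{n+1} = s_{w(n)} v_n` for independent random indices `w(n)`. We identify `ℤ^r` with
`O_K^(d+2)` by an integral basis of a number field `K` of degree `m`.

**Theorem.** The vectors whose polynomial does not satisfy the inequality form a pronull set (the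
closure in the product of the `ℤ_p^r`, for `p` prime to any given integer, has Haar measure zero). For
almost every sequence `w`, and for ALL number fields `K` of degree `m`, all integral bases of `K` and
all constants `B > 0`, the polynomial with the vector `v_n` satisfies the inequality with the
constant `B` for all `n` outside a set of density zero.

The orbit consists of at most exponentially many of the vectors, its group can have infinite index, and
the vectors `v_n`, `n ≤ N`, are only `N` of the vectors of size `e^(c N)`.

Proof. The criterion of `PolynomialLehmer` (a prime `v` of `K` of large norm which divides `b` exactly,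
such that `c₀ + … + c_d x^d` is irreducible of degree `d` modulo `v`) is a condition on the integral
coordinates modulo `p²` of density at least `(1/4d) (1/p - 1/p²)` for the prime numbers `p` that are norms
of prime ideals `v`, and the sum of these densities diverges. So the exceptional set is pronull.
The criterion depends only on the structure constants of the integral basis, so that there are
countably many sets. A pronull set is contained in few classes modulo some `q`, and the random walk modulo
`q` is equidistributed in the orbit of `v`.
-/

set_option autoImplicit false

namespace Pool.Agent.Results.MP_2194ec_nt.RandomOrbits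

open NumberField Filter Topology
open Pool.Agent.Results.MP_2194ec_nt.PolynomialLehmer (Exceptional)
open Pool.Agent.N24.RW (Walk orb words ProNull)

/-- The vector of integers of `K` with the given coordinates in the integral basis `ω`. -/
noncomputable def vector {K : Type} [Field K] {m : ℕ} (ω : Module.Basis (Fin m) ℤ (𝓞 K)) {d : ℕ}
    (c : Fin (d + 2) × Fin m → ℤ) (i : Fin (d + 2)) : 𝓞 K :=
  ∑ j : Fin m, c (i, j) • ω j

/-- **The dynamical Lehmer inequality along random orbits of vectors of coefficients.** -/
theorem result (m d : ℕ) (hd : 2 ≤ d) :
    (∀ (K : Type) [Field K] [NumberField K] (ω : Module.Basis (Fin m) ℤ (𝓞 K)) (B : ℝ), 0 < B →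
      ProNull {c : Fin (d + 2) × Fin m → ℤ | vector ω c ∈ Exceptional K d B}) ∧
    ∀ (W : Walk (Fin (d + 2) × Fin m)) (v : Fin (d + 2) × Fin m → ℤ), v ≠ 0 →
      ∀ᵐ w ∂(words W.m), ∀ (K : Type) [Field K] [NumberField K] (ω : Module.Basis (Fin m) ℤ (𝓞 K))
        (B : ℝ), 0 < B →
        Tendsto (fun N : ℕ => (({n : ℕ | n < N ∧
          vector ω (orb W v w n) ∈ Exceptional K d B}.ncard : ℕ) : ℝ) / (N : ℝ)) atTop (𝓝 0) :=
  ⟨fun K _ _ ω B hB => Pool.Agent.N954.RO.exceptional_pronull Pool.Agent.N24.RW.crit
      Pool.Agent.N24.RW.clo d hd K ω B hB,
    fun W v hv => Pool.Agent.N954.RO.exceptional_orbit Pool.Agent.N24.RW.crit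
      Pool.Agent.N24.RW.clo Pool.Agent.N24.RW.main d hd W v hv⟩

end Pool.Agent.Results.MP_2194ec_nt.RandomOrbits
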