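import Pool.Agent.N692.TS.Main
import Pool.Agent.Results.MP_2194ec_nt.PolynomialLehmer

/-!
# MP_2194ec_nt: the dynamical Lehmer inequality along thin sequences of polynomials

The starting result `PolynomialLehmer` shows that for 100% of the vectors `(b, c₀, …, c_d)` of integers
of a number field `K` in large boxes the polynomial

  `φ = (c₀ + c₁ x + … + c_d x^d) / b`

of degree `d ≥ 2` satisfies the dynamical Lehmer inequality `ĥ_φ(x) ≥ B / [L : K]` for all number
fields `L ⊇ K` of degree not divisible by `d` and all `x ∈ L` (and `ĥ_φ(x) ≥ B` if `L` is Galois over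
`K`); here `B` is any constant given in advance.

Here we prove this along thin sequences.  Let `P_{i j}` (`i, j = 0, 1, 2, …`) be generalised
polynomials `P(t) = ∑ a_x t ^ x` (finitely many real exponents, real coefficients) with distinct leading
exponents which are positive and not integers and have positive coefficients, for example
`P_{i j}(t) = t ^ ((i + j)² + i + √2)`.  For a number field `K` with the integral basis
`ω_0, …, ω_{m-1}` we consider the vectors of integers of `K`

  `c_i(t) = ∑_j ⌊P_{i j}(t)⌋ ω_j`,  `i = 0, …, d + 1`,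

and the polynomials `φ_t = (c_1(t) + c_2(t) x + … + c_{d+1}(t) x^d) / c_0(t)`.

**Theorem.**  There is ONE set `E` of positive integers of natural density zero, which has density zero
also in the set of the prime numbers, such that for ALL number fields `K`, all integral bases of `K`,
all degrees `d ≥ 2` and all constants `B > 0`, and for all but finitely many `t` outside `E` the
polynomial `φ_t` has degree `d` and satisfies: for all number fields `L ⊇ K` whose degree over `K` is
not divisible by `d` and all `x ∈ L` the canonical height is at least `B / [L : K]`, and at least `B` if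
`L` is Galois over `K`.  The set `E` depends only on the `P_{i j}`.

Only `N` of the roughly `N ^ (sum of the leading exponents)` vectors of a box occur, so this is not a
consequence of the theorem for boxes.

Proof.  By `PolynomialLehmer` it suffices that there is a prime `v` of `K` of large norm which divides
`c_0` exactly, such that `c_1 + … + c_{d+1} x^d` is irreducible of degree `d` modulo `v`.  For the
prime numbers `p` that are norms of prime ideals `v` of `K` this is a condition on the residues modulo
`p²` of the integers `⌊P_{i j}(t)⌋`, of density at least `(1/4d) (1/p - 1/p²)`, and the sum of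
these densities diverges by the theorem of Frobenius.  The integers `⌊P_{i j}(t)⌋` are jointly
equidistributed modulo all `q ≤ N^δ` (exponential sums), over the integers and over the prime numbers
`t ≤ N`, and Turan's sieve shows that almost all `t` have the property for `d`, `B` and `K`.  The
criterion depends only on the structure constants of the integral basis, so that there are countably
many conditions, and a diagonal argument gives one set for all `K`, `d` and `B`.
-/

set_option autoImplicit false

namespace Pool.Agent.Results.MP_2194ec_nt.ThinSequences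

open NumberField Module
open Pool.Agent.Results.MP_2194ec_nt.PolynomialLehmer (Exceptional)

/-- `c` is the largest exponent of the generalised polynomial `∑ a_x t ^ x`; it is positive and not an
integer and has a positive coefficient. -/
def Admissible (F : Finset ℝ) (a : ℝ → ℝ) (c : ℝ) : Prop :=
  c ∈ F ∧ (∀ x ∈ F, x ≤ c) ∧ 0 < c ∧ (∀ m : ℕ, c ≠ m) ∧ 0 < a c

/-- `E` has density zero relative to the sets `S N`. -/
def NullIn (S : ℕ → Finset ℕ) (E : Set ℕ) : Prop :=
  ∀ ε : ℝ, 0 < ε → ∃ N₀ : ℕ, ∀ N : ℕ, N₀ ≤ N →
    ({t : ℕ | t ∈ S N ∧ t ∈ E}.ncard : ℝ) ≤ ε * (S N).card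

/-- The vector of the integers `c_i(t) = ∑_j ⌊P_{i j}(t)⌋ ω_j` of `K`, where
`P_{i j}(t) = ∑_{x ∈ F i j} a_{i j x} t ^ x`. -/
noncomputable def vector {K : Type} [Field K] {m : ℕ} (ω : Module.Basis (Fin m) ℤ (𝓞 K))
    (F : ℕ → ℕ → Finset ℝ) (a : ℕ → ℕ → ℝ → ℝ) (d t : ℕ) (i : Fin (d + 2)) : 𝓞 K :=
  ∑ j : Fin m, ⌊∑ x ∈ F i j, a i j x * (t : ℝ) ^ x⌋ • ω j

section proof

open IsDedekindDomain Pool.Agent.TH377.Dyn Pool.Agent.TH377.Sup

theorem not_exceptional {K : Type} [Field K] [NumberField K] {d : ℕ} (hd : 2 ≤ d) {B : ℝ} (hB : 0 < B)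
    (c : Fin (d + 2) → 𝓞 K)
    (h : Pool.Agent.N692.TS.LocGood d ⌈Real.exp (B * d * finrank ℚ K)⌉₊ c) :
    c ∉ Exceptional K d B := by
  obtain ⟨v, hDv, h1, h2, h3⟩ := h
  intro hc
  apply hc
  have h0 : c 0 ≠ 0 := by
    intro h0
    apply h2
    rw [h0]
    exact zero_mem _
  have hdeg := Pool.Agent.Results.MP_2194ec_nt.PolynomialLehmer.poly_natDegree c h0 v h3
  refine ⟨h0, hdeg, ?_⟩
  intro L _ _ _ x hL
  have hN : B * d * finrank ℚ K ≤ Real.log (Ideal.absNorm v.asIdeal) := by
    have g1 := Pool.Agent.TH377.Dyn.lt_norm v _ hDv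
    have g2 : Real.exp (B * d * finrank ℚ K) ≤ Ideal.absNorm v.asIdeal :=
      (Nat.le_ceil _).trans (Nat.cast_le.2 g1.le)
    exact (Real.le_log_iff_exp_le ((Real.exp_pos _).trans_le g2)).2 g2
  have := Pool.Agent.TH377.Dyn.lehmer hd B hB c v h0 h1 h3 hN x hL
  unfold Pool.Agent.Results.MP_2194ec_nt.PolynomialLehmer.IsCanonicalHeight
  rw [hdeg]
  exact this

end proof

/-- **The dynamical Lehmer inequality along thin sequences of polynomials, with one exceptional set for
all number fields, integral bases, degrees and constants.** -/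
theorem result (F : ℕ → ℕ → Finset ℝ) (a : ℕ → ℕ → ℝ → ℝ) (c : ℕ → ℕ → ℝ)
    (h : ∀ i j, Admissible (F i j) (a i j) (c i j))
    (hc : Function.Injective fun q : ℕ × ℕ => c q.1 q.2) :
    ∃ E : Set ℕ, NullIn (fun N => Finset.Ioc N (2 * N)) E ∧
      NullIn (fun N => (Finset.Ioc N (2 * N)).filter Nat.Prime) E ∧
      ∀ (K : Type) [Field K] [NumberField K] (m : ℕ) (ω : Module.Basis (Fin m) ℤ (𝓞 K)) (d : ℕ),
        2 ≤ d → ∀ B : ℝ, 0 < B →
          {t : ℕ | t ∉ E ∧ vector ω F a d t ∈ Exceptional K d B}.Finite := by
  obtain ⟨E, h1, h2, h3⟩ := Pool.Agent.N692.TS.one_set h hc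
  refine ⟨E, h1, h2, ?_⟩
  intro K _ _ m ω d hd B hB
  refine (h3 K m ω d hd ⌈Real.exp (B * d * finrank ℚ K)⌉₊).subset ?_
  rintro t ⟨htE, ht⟩
  exact ⟨htE, fun hg => not_exceptional hd hB _ hg ht⟩

end Pool.Agent.Results.MP_2194ec_nt.ThinSequences
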